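import Pool.Agent.MWN.StmtsH

/-!
# Block MWN, row N2X: clause c2 without `D 0`
-/

namespace Pool.Agent.MWN.H19

open Pool.Agent.Helper14_MV Pool.Agent.Helper2_MV Pool.Agent.MVO Pool.Agent.MWL Pool.Agent.MWS
  Pool.Agent.MWF Pool.Agent.MWN

/-- the blocks of the left side of `C2` -/
def U2 : ℕ → List ℕ := fun j => if j = 0 then [0, 1] else if j = 1 then [0, 0] else [1, 1]

/-- the blocks of the right side of `C2` -/
def V2 : ℕ → List ℕ := fun j => if j = 0 then [1, 0] else if j = 1 then [0, 0] else [1, 1]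

theorem le2 {p : ℕ → Prop} (h0 : p 0) (h1 : p 1) (h2 : p 2) : ∀ j ≤ 2, p j := by
  intro j hj
  interval_cases j
  · exact h0
  · exact h1
  · exact h2

theorem two01_U2 : Two01 2 U2 := le2 (by decide) (by decide) (by decide)
theorem two01_V2 : Two01 2 V2 := le2 (by decide) (by decide) (by decide)

theorem okB_of {U : ℕ → List ℕ} (h : Two01 2 U) (h0 : 2 ≤ deg 2 (ty U 0))
    (h1 : 2 ≤ deg 2 (ty U 1)) : OkB 2 U := by
  refine ⟨?_, ?_⟩
  · intro j hj c hc
    rcases h j hj c hc with rfl | rfl
    · unfold NS; omega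
    · unfold NS; omega
  · intro j hj c hc
    rcases h j hj c hc with rfl | rfl
    · exact h0
    · exact h1

theorem n2x (h1 : NphStmt) (h2 : NcxStmt) (h3 : NcoStmt) : N2xStmt := by
  intro β hHB hI hM hD
  by_contra hC
  have hE : ¬ Oh β Bit.E := by
    intro hE
    apply hC
    have hE' : RR β [0, 0, 2] [0, 0, 2, 0, 0] := hE
    have hE2 : RR β [0, 2, 0, 0, 3] [0, 2, 0, 0, 3, 0, 0] := by
      have s := hE'.sub (fun c => if c = 2 then [3] else [c])
      exact (RR.refl [0, 2]).append s
    exact h3 β hHB hI 2 U2 V2 0 1 2 (okB_of two01_U2 (by decide) (by decide))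
      (okB_of two01_V2 (by decide) (by decide)) two01_U2 two01_V2
      (le2 (by decide) (by decide) (by decide)) (le2 (by decide) (by decide) (by decide))
      (Or.inl ⟨rfl, rfl⟩) (le_refl 2) (by decide) (by decide) (by decide) hE2
  have key := h1 β hHB hI hM 2 0 (cd3 Cd.one Cd.one Cd.z) (cd3 Cd.one Cd.z Cd.one)
    (cd3 Cd.one Cd.pos Cd.z) (cd3 Cd.one Cd.z Cd.pos) false (v3 1 2 0) (v3 1 1 0) (v3 1 0 2)
    (v3 1 0 1) (by decide +kernel) (by decide) (by decide) (by decide) (by decide)
    (h2 β hHB hI [8] 2 _ (by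
      intro x hx
      rw [List.mem_singleton] at hx
      exact Or.inl hx) (by decide +kernel))
    (h2 β hHB hI [8] 2 _ (by
      intro x hx
      rw [List.mem_singleton] at hx
      exact Or.inl hx) (by decide +kernel))
    (h2 β hHB hI [8, 3, 0] 2 _ (by
      intro x hx
      simp only [List.mem_cons, List.not_mem_nil, or_false] at hx
      rcases hx with rfl | rfl | rfl
      · exact Or.inl rfl
      · exact Or.inr (Or.inr (Or.inr (Or.inr (Or.inl ⟨rfl, hD⟩))))
      · exact Or.inr (Or.inl ⟨rfl, hE⟩)) (by decide +kernel))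
    (h2 β hHB hI [8, 3] 2 _ (by
      intro x hx
      simp only [List.mem_cons, List.not_mem_nil, or_false] at hx
      rcases hx with rfl | rfl
      · exact Or.inl rfl
      · exact Or.inr (Or.inr (Or.inr (Or.inr (Or.inl ⟨rfl, hD⟩))))) (by decide +kernel))
  rcases key with h | h
  · have h' : RR β [0, 1, 2, 0, 3, 1] [1, 0, 2, 0, 3, 1] := h
    apply hC
    have s := (h'.sub (fun c => if c = 3 then [0, 3] else [c])).append (RR.refl [1])
    exact s
  · exact hC h

end Pool.Agent.MWN.H19
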